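import Mathlib

/-!
# Even and odd parts of a polynomial with respect to some of the variables
-/

set_option autoImplicit false

namespace Pool.Agent.Y487.OR

open MvPolynomial

section orth

variable {κ : Type} [Fintype κ] [DecidableEq κ]

theorem factor (p q : Prop) [Decidable p] [Decidable q] :
    ∑ u : ℤˣ, ((if p then ((u : ℤ) : ℂ) else 1) * (if q then ((u : ℤ) : ℂ) else 1)) =
      if (p ↔ q) then 2 else 0 := by
  rw [UnitsInt.univ, Finset.sum_pair (by decide)]
  by_cases hp : p <;> by_cases hq : q <;> simp [hp, hq] <;> norm_num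

/-- Orthogonality of characters. -/
theorem orth (b : Finset κ → ℂ)
    (h : ∀ e : κ → ℤˣ, ∑ S, (∏ j ∈ S, ((e j : ℤ) : ℂ)) * b S = 0) (S0 : Finset κ) :
    b S0 = 0 := by
  have h1 : ∑ e : κ → ℤˣ, (∏ j ∈ S0, ((e j : ℤ) : ℂ)) *
      ∑ S, (∏ j ∈ S, ((e j : ℤ) : ℂ)) * b S = 0 :=
    Finset.sum_eq_zero fun e _ => by rw [h e, mul_zero]
  have h2 : ∑ e : κ → ℤˣ, (∏ j ∈ S0, ((e j : ℤ) : ℂ)) *
      ∑ S, (∏ j ∈ S, ((e j : ℤ) : ℂ)) * b S =
      ∑ S, (∑ e : κ → ℤˣ, (∏ j ∈ S0, ((e j : ℤ) : ℂ)) * ∏ j ∈ S, ((e j : ℤ) : ℂ)) * b S := by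
    simp_rw [Finset.mul_sum, Finset.sum_mul]
    rw [Finset.sum_comm]
    refine Finset.sum_congr rfl fun S _ => Finset.sum_congr rfl fun e _ => by ring
  have h3 : ∀ S, (∑ e : κ → ℤˣ, (∏ j ∈ S0, ((e j : ℤ) : ℂ)) * ∏ j ∈ S, ((e j : ℤ) : ℂ)) =
      if S = S0 then 2 ^ Fintype.card κ else 0 := by
    intro S
    have h4 : ∀ e : κ → ℤˣ, (∏ j ∈ S0, ((e j : ℤ) : ℂ)) * ∏ j ∈ S, ((e j : ℤ) : ℂ) =
        ∏ j, ((if j ∈ S0 then ((e j : ℤ) : ℂ) else 1) *
          (if j ∈ S then ((e j : ℤ) : ℂ) else 1)) := by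
      intro e
      rw [Finset.prod_mul_distrib, Finset.prod_ite_mem, Finset.prod_ite_mem,
        Finset.univ_inter, Finset.univ_inter]
    have h5 := Finset.prod_univ_sum (fun _ : κ => (Finset.univ : Finset ℤˣ))
      (fun j u => ((if j ∈ S0 then ((u : ℤ) : ℂ) else 1) *
          (if j ∈ S then ((u : ℤ) : ℂ) else 1)))
    rw [Fintype.piFinset_univ] at h5
    rw [Finset.sum_congr rfl (fun e _ => h4 e), ← h5]
    simp only [factor]
    split_ifs with hS
    · subst hS
      simp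
    · obtain ⟨j, hj⟩ : ∃ j, ¬ (j ∈ S0 ↔ j ∈ S) := by
        by_contra hne
        push Not at hne
        exact hS (Finset.ext fun j => (hne j).symm)
      exact Finset.prod_eq_zero (Finset.mem_univ j) (if_neg hj)
  rw [h2] at h1
  simp only [h3, ite_mul, zero_mul] at h1
  rw [Finset.sum_ite_eq' Finset.univ S0, if_pos (Finset.mem_univ _)] at h1
  exact (mul_eq_zero.1 h1).resolve_left (pow_ne_zero _ two_ne_zero)

end orth

section part

variable {σ κ : Type} [Fintype κ] [DecidableEq κ]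

/-- The variables with an odd exponent. -/
def odds (m : (σ ⊕ κ) →₀ ℕ) : Finset κ := Finset.univ.filter fun j => m (Sum.inr j) % 2 = 1

/-- The exponents of the variables of the second group are halved. -/
noncomputable def half (m : (σ ⊕ κ) →₀ ℕ) : (σ ⊕ κ) →₀ ℕ :=
  Finsupp.onFinset m.support
    (fun x => Sum.elim (fun s => m (Sum.inl s)) (fun j => m (Sum.inr j) / 2) x) fun x hx => by
      rw [Finsupp.mem_support_iff]
      intro h
      apply hx
      rcases x with s | j
      · exact h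
      · show m (Sum.inr j) / 2 = 0
        rw [h, Nat.zero_div]

/-- The part of a polynomial. -/
noncomputable def prt (S : Finset κ) : MvPolynomial (σ ⊕ κ) ℂ →ₗ[ℂ] MvPolynomial (σ ⊕ κ) ℂ :=
  (MvPolynomial.basisMonomials (σ ⊕ κ) ℂ).constr ℂ
    (fun m => if odds m = S then monomial (half m) (1 : ℂ) else 0)

theorem prt_monomial (S : Finset κ) (m : (σ ⊕ κ) →₀ ℕ) (c : ℂ) :
    prt S (monomial m c) = if odds m = S then monomial (half m) c else 0 := by
  have h1 : prt S (monomial m (1 : ℂ)) = if odds m = S then monomial (half m) (1 : ℂ) else 0 := by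
    have h2 := (MvPolynomial.basisMonomials (σ ⊕ κ) ℂ).constr_basis ℂ
      (fun m => if odds m = S then monomial (half m) (1 : ℂ) else 0) m
    rw [MvPolynomial.coe_basisMonomials] at h2
    exact h2
  have h3 : (monomial m c : MvPolynomial (σ ⊕ κ) ℂ) = c • monomial m (1 : ℂ) := by
    rw [MvPolynomial.smul_monomial, smul_eq_mul, mul_one]
  rw [h3, map_smul, h1]
  split_ifs
  · rw [MvPolynomial.smul_monomial, smul_eq_mul, mul_one]
  · rw [smul_zero]

omit [DecidableEq κ] in
theorem prodT (T : Finset (σ ⊕ κ)) (g : σ ⊕ κ → ℂ) (hg : ∀ j, Sum.inr j ∉ T → g (Sum.inr j) = 1) :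
    ∏ x ∈ T, g x = (∏ s ∈ T.toLeft, g (Sum.inl s)) * ∏ j : κ, g (Sum.inr j) := by
  have h1 : ∏ x ∈ T, g x = ∏ x ∈ T.toLeft.disjSum T.toRight, g x := by
    rw [Finset.toLeft_disjSum_toRight]
  rw [h1, Finset.prod_disjSum]
  congr 1
  refine Finset.prod_subset (Finset.subset_univ _) fun j _ hj => hg j ?_
  intro h
  exact hj (Finset.mem_toRight.2 h)

theorem prod_half (m : (σ ⊕ κ) →₀ ℕ) (z : σ → ℂ) (w : κ → ℂ) :
    (m.prod fun x k => (Sum.elim z w x) ^ k) = (∏ j ∈ odds m, w j) *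
      ((half m).prod fun x k => (Sum.elim z (fun j => w j ^ 2) x) ^ k) := by
  have h1 : ((half m).prod fun x k => (Sum.elim z (fun j => w j ^ 2) x) ^ k) =
      ∏ x ∈ m.support, (Sum.elim z (fun j => w j ^ 2) x) ^ (half m x) :=
    Finsupp.prod_of_support_subset _ Finsupp.support_onFinset_subset _ fun x _ => pow_zero _
  have h2 : (m.prod fun x k => (Sum.elim z w x) ^ k) =
      ∏ x ∈ m.support, (Sum.elim z w x) ^ (m x) := rfl
  have hm : ∀ j, Sum.inr j ∉ m.support → m (Sum.inr j) = 0 := fun j hj =>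
    Finsupp.notMem_support_iff.1 hj
  rw [h1, h2, prodT, prodT]
  · have h3 : ∏ j ∈ odds m, w j = ∏ j, if m (Sum.inr j) % 2 = 1 then w j else 1 := by
      unfold odds
      rw [Finset.prod_filter]
    rw [h3]
    have h4 : ∀ j : κ, Sum.elim z w (Sum.inr j) ^ m (Sum.inr j) =
        (if m (Sum.inr j) % 2 = 1 then w j else 1) *
          Sum.elim z (fun j => w j ^ 2) (Sum.inr j) ^ (half m (Sum.inr j)) := by
      intro j
      show w j ^ m (Sum.inr j) = (if m (Sum.inr j) % 2 = 1 then w j else 1) *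
        (w j ^ 2) ^ (m (Sum.inr j) / 2)
      rw [← pow_mul]
      split_ifs with h
      · have h5 : m (Sum.inr j) = 2 * (m (Sum.inr j) / 2) + 1 := by omega
        calc w j ^ m (Sum.inr j) = w j ^ (2 * (m (Sum.inr j) / 2) + 1) := by rw [← h5]
          _ = _ := by rw [pow_succ, mul_comm]
      · have h5 : m (Sum.inr j) = 2 * (m (Sum.inr j) / 2) := by omega
        calc w j ^ m (Sum.inr j) = w j ^ (2 * (m (Sum.inr j) / 2)) := by rw [← h5]
          _ = _ := by rw [one_mul]
    rw [Finset.prod_congr rfl fun j _ => h4 j, Finset.prod_mul_distrib]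
    have h6 : ∏ s ∈ m.support.toLeft, Sum.elim z w (Sum.inl s) ^ m (Sum.inl s) =
        ∏ s ∈ m.support.toLeft, Sum.elim z (fun j => w j ^ 2) (Sum.inl s) ^
          (half m (Sum.inl s)) := rfl
    rw [h6]
    ring
  · intro j hj
    show (w j ^ 2) ^ (m (Sum.inr j) / 2) = 1
    rw [hm j hj]
    simp
  · intro j hj
    rw [hm j hj, pow_zero]

theorem eval_parts (F : MvPolynomial (σ ⊕ κ) ℂ) (z : σ → ℂ) (w : κ → ℂ) :
    MvPolynomial.eval (Sum.elim z w) F =
      ∑ S, (∏ j ∈ S, w j) * MvPolynomial.eval (Sum.elim z (fun j => w j ^ 2)) (prt S F) := by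
  induction F using MvPolynomial.induction_on' with
  | monomial m c =>
    have h1 : ∀ S : Finset κ, (∏ j ∈ S, w j) *
        MvPolynomial.eval (Sum.elim z (fun j => w j ^ 2)) (prt S (monomial m c)) =
        if odds m = S then (∏ j ∈ S, w j) *
          MvPolynomial.eval (Sum.elim z (fun j => w j ^ 2)) (monomial (half m) c) else 0 := by
      intro S
      rw [prt_monomial]
      split_ifs
      · rfl
      · rw [map_zero, mul_zero]
    rw [Finset.sum_congr rfl fun S _ => h1 S, Finset.sum_ite_eq, if_pos (Finset.mem_univ _),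
      MvPolynomial.eval_monomial, MvPolynomial.eval_monomial, prod_half]
    ring
  | add p q hp hq =>
    rw [map_add, hp, hq, ← Finset.sum_add_distrib]
    refine Finset.sum_congr rfl fun S _ => ?_
    rw [map_add, map_add, mul_add]

theorem eval_zero (F : MvPolynomial (σ ⊕ κ) ℂ) (z : σ → ℂ) (w : κ → ℂ) (hw : ∀ j, w j ≠ 0)
    (h : ∀ e : κ → ℤˣ,
      MvPolynomial.eval (Sum.elim z (fun j => ((e j : ℤ) : ℂ) * w j)) F = 0) (S : Finset κ) :
    MvPolynomial.eval (Sum.elim z (fun j => w j ^ 2)) (prt S F) = 0 := by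
  have h1 : (∏ j ∈ S, w j) *
      MvPolynomial.eval (Sum.elim z (fun j => w j ^ 2)) (prt S F) = 0 := by
    refine orth (fun S => (∏ j ∈ S, w j) *
      MvPolynomial.eval (Sum.elim z (fun j => w j ^ 2)) (prt S F)) (fun e => ?_) S
    have h2 := h e
    rw [eval_parts] at h2
    have h3 : (fun j => (((e j : ℤ) : ℂ) * w j) ^ 2) = fun j => w j ^ 2 := by
      funext j
      rw [mul_pow]
      rcases Int.units_eq_one_or (e j) with h | h <;> simp [h]
    rw [h3] at h2
    rw [← h2]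
    refine Finset.sum_congr rfl fun S _ => ?_
    rw [Finset.prod_mul_distrib, mul_assoc]
  exact (mul_eq_zero.1 h1).resolve_left (Finset.prod_ne_zero_iff.2 fun j _ => hw j)

end part

end Pool.Agent.Y487.OR
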